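import Pool.Agent.Helper84.SG.Main

/-!
# Subset sums in solvable groups

For every finitely generated solvable group `G` that is not virtually nilpotent and whose word
problem is decidable in polynomial time, the subset sum problem of `G` is NP-complete.
-/

open Pool.Agent.Helper87.SSP Pool.Agent.Helper87.NP

theorem Pool.Agent.Results.MP_9292e0_lc.NPCompleteness.result
    {G : Type*} [Group G] {g : ℕ} (s : Fin g → G)
    (hs : Subgroup.closure (Set.range s) = ⊤) (hsol : Group.IsSolvable G)
    (hG : ¬ VirtNilp G) (hWP : InP (WP s)) : IsNPComplete (SSP s) :=
  Pool.Agent.Helper84.SG.main_group s hs hsol hG hWP
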